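import Pool.Agent.J6H17.RF.StmN
import Pool.Agent.J6H17.RF.Fin

/-!
# Project RF, negative part, module RFN-FP
-/

set_option autoImplicit false

namespace Pool.Agent.J6H1.RFN

open Pool.Agent Pool.Agent.NPC Pool.Agent.H628R3.RO Pool.Agent.J6H17.RF

theorem poly_rep {α : Type} [TEnc α] {n : α → ℕ} (hn : UPoly n) :
    Poly (fun a => List.replicate (n a) true) :=
  (NPC.Poly.map hn (F := fun _ _ => true) (NPC.Poly.const true)).congr fun a => by simp

theorem poly_rfn (h1 : S_NUM) (h2 : S_SPOLY) (Pr μ : Fm) {α : Type} [TEnc α] {n : α → ℕ}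
    (hn : Poly n) : Poly (fun a => rfn Pr μ (n a)) := by
  have hnum : Poly (fun a => num (n a)) := h1.1.comp hn
  have hle : ∀ i : ℕ, Poly (fun a => Fm.le (Tm.len (Tm.var i)) (num (n a))) := fun i =>
    h2.2.2.2.2.1 α _ _ (NPC.Poly.const _) hnum
  have hall : ∀ (x : ℕ) (f : α → Fm), Poly f → Poly (fun a => Fm.all x (f a)) :=
    fun x f hf => h2.2.2.1 α f x hf
  have himp : ∀ (f g : α → Fm), Poly f → Poly g → Poly (fun a => (f a).imp (g a)) :=
    fun f g hf hg => h2.2.1 α f g hf hg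
  exact hall 0 _ (hall 1 _ (hall 2 _ (hall 3 _ (himp _ _ (hle 0) (himp _ _ (hle 1)
    (himp _ _ (hle 2) (himp _ _ (hle 3) (NPC.Poly.const (Fm.imp Pr μ)))))))))

/-- **RFN-FP.** -/
theorem main (h1 : S_NUM) (h2 : S_SPOLY) : S_NFP := by
  intro Pr μ q
  constructor
  · have hl : UPoly (fun y : List Bool => y.length) := UPoly.length NPC.Poly.id
    exact H622R2.poly_pairBits (NPC.Poly.const (bits Pr))
      (H622R2.poly_pairBits (poly_rep hl) (poly_rep (hl.eval q)))
  · have hl : Poly (fun a : List Bool × List Bool => a.2.length) :=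
      NPC.Poly.length (NPC.Poly.snd NPC.Poly.id)
    have hv : Poly (fun a : List Bool × List Bool => Tm.var (codeN a.1)) :=
      h2.2.2.2.2.2.2 _ _ (h1.2.1.comp (NPC.Poly.fst NPC.Poly.id))
    have he : Poly (fun a : List Bool × List Bool =>
        Fm.eq (Tm.var (codeN a.1)) (Tm.var (codeN a.1))) := h2.2.2.2.1 _ _ _ hv hv
    have hr := poly_rfn h1 h2 Pr μ hl
    exact poly_bits (NPC.Poly.cons hr (NPC.Poly.cons (h2.2.1 _ _ _ he hr)
      (NPC.Poly.cons he (NPC.Poly.const []))))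

end Pool.Agent.J6H1.RFN
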